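import Mathlib

/-!
# A simple model of computation

While-programs over binary trees (S-expressions with a single atom), in the style of N. D. Jones'
language `WHILE`.  A program transforms one tree into another one; every elementary operation costs
one unit of time.  The running times in this model and on Turing machines are polynomially
equivalent.
-/

namespace Pool.Agent.H7.Comp

/-- Binary trees: the data of the model of computation. -/
inductive Tr : Type
  | nil : Tr
  | node : Tr → Tr → Tr

/-- Size of a tree: its number of nodes. -/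
def Tr.size : Tr → ℕ
  | .nil => 1
  | .node l r => l.size + r.size + 1

/-- Programs. -/
inductive Prog : Type
  /-- do nothing -/
  | id : Prog
  /-- return the atom `nil` -/
  | nil : Prog
  /-- left component -/
  | hd : Prog
  /-- right component -/
  | tl : Prog
  /-- run both programs on the input and form the node of the two results -/
  | pair : Prog → Prog → Prog
  /-- run the second program on the result of the first one -/
  | seq : Prog → Prog → Prog
  /-- `cond c p q`: if the result of `c` is not `nil` then run `p` else run `q` -/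
  | cond : Prog → Prog → Prog → Prog
  /-- `loop c p`: while the result of `c` is not `nil`, run `p` -/
  | loop : Prog → Prog → Prog

/-- `Run p x y t`: started on input `x`, the program `p` terminates with output `y` after `t` units
of time. -/
inductive Run : Prog → Tr → Tr → ℕ → Prop
  | id (x : Tr) : Run .id x x 1
  | nil (x : Tr) : Run .nil x .nil 1
  | hd_nil : Run .hd .nil .nil 1
  | hd_node (a b : Tr) : Run .hd (.node a b) a 1
  | tl_nil : Run .tl .nil .nil 1
  | tl_node (a b : Tr) : Run .tl (.node a b) b 1
  | pair {p q : Prog} {x a b : Tr} {s t : ℕ} :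
      Run p x a s → Run q x b t → Run (.pair p q) x (.node a b) (s + t + 1)
  | seq {p q : Prog} {x y z : Tr} {s t : ℕ} :
      Run p x y s → Run q y z t → Run (.seq p q) x z (s + t + 1)
  | cond_true {c p q : Prog} {x a b y : Tr} {s t : ℕ} :
      Run c x (.node a b) s → Run p x y t → Run (.cond c p q) x y (s + t + 1)
  | cond_false {c p q : Prog} {x y : Tr} {s t : ℕ} :
      Run c x .nil s → Run q x y t → Run (.cond c p q) x y (s + t + 1)
  | loop_stop {c p : Prog} {x : Tr} {s : ℕ} :
      Run c x .nil s → Run (.loop c p) x x (s + 1)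
  | loop_step {c p : Prog} {x a b y z : Tr} {s t u : ℕ} :
      Run c x (.node a b) s → Run p x y t → Run (.loop c p) y z u →
        Run (.loop c p) x z (s + t + u + 1)

/-- The semantics is deterministic. -/
theorem Run.det {p : Prog} {x y y' : Tr} {t t' : ℕ} (h : Run p x y t) (h' : Run p x y' t') :
    y = y' ∧ t = t' := by
  induction h generalizing y' t' with
  | id x => cases h'; exact ⟨rfl, rfl⟩
  | nil x => cases h'; exact ⟨rfl, rfl⟩
  | hd_nil => cases h'; exact ⟨rfl, rfl⟩
  | hd_node a b => cases h'; exact ⟨rfl, rfl⟩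
  | tl_nil => cases h'; exact ⟨rfl, rfl⟩
  | tl_node a b => cases h'; exact ⟨rfl, rfl⟩
  | pair _ _ ih1 ih2 =>
    cases h' with
    | pair h1 h2 =>
      obtain ⟨rfl, rfl⟩ := ih1 h1
      obtain ⟨rfl, rfl⟩ := ih2 h2
      exact ⟨rfl, rfl⟩
  | seq _ _ ih1 ih2 =>
    cases h' with
    | seq h1 h2 =>
      obtain ⟨rfl, rfl⟩ := ih1 h1
      obtain ⟨rfl, rfl⟩ := ih2 h2
      exact ⟨rfl, rfl⟩
  | cond_true _ _ ih1 ih2 =>
    cases h' with
    | cond_true h1 h2 =>
      obtain ⟨_, rfl⟩ := ih1 h1
      obtain ⟨rfl, rfl⟩ := ih2 h2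
      exact ⟨rfl, rfl⟩
    | cond_false h1 h2 =>
      obtain ⟨h, _⟩ := ih1 h1
      cases h
  | cond_false _ _ ih1 ih2 =>
    cases h' with
    | cond_true h1 h2 =>
      obtain ⟨h, _⟩ := ih1 h1
      cases h
    | cond_false h1 h2 =>
      obtain ⟨_, rfl⟩ := ih1 h1
      obtain ⟨rfl, rfl⟩ := ih2 h2
      exact ⟨rfl, rfl⟩
  | loop_stop _ ih1 =>
    cases h' with
    | loop_stop h1 =>
      obtain ⟨_, rfl⟩ := ih1 h1
      exact ⟨rfl, rfl⟩
    | loop_step h1 _ _ =>
      obtain ⟨h, _⟩ := ih1 h1
      cases h
  | loop_step _ _ _ ih1 ih2 ih3 =>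
    cases h' with
    | loop_stop h1 =>
      obtain ⟨h, _⟩ := ih1 h1
      cases h
    | loop_step h1 h2 h3 =>
      obtain ⟨_, rfl⟩ := ih1 h1
      obtain ⟨rfl, rfl⟩ := ih2 h2
      obtain ⟨rfl, rfl⟩ := ih3 h3
      exact ⟨rfl, rfl⟩

/-- Types whose elements are encoded as trees. -/
class Enc (α : Type) where
  /-- the encoding -/
  enc : α → Tr

export Enc (enc)

/-- Natural numbers are encoded in unary. -/
def encNat : ℕ → Tr
  | 0 => .nil
  | n + 1 => .node .nil (encNat n)

/-- Truth values. -/
def encBool : Bool → Tr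
  | false => .nil
  | true => .node .nil .nil

/-- Lists. -/
def encList {α : Type} [Enc α] : List α → Tr
  | [] => .nil
  | a :: l => .node (enc a) (encList l)

instance : Enc ℕ := ⟨encNat⟩
instance : Enc Bool := ⟨encBool⟩
instance {α β : Type} [Enc α] [Enc β] : Enc (α × β) := ⟨fun p => .node (enc p.1) (enc p.2)⟩
instance {α : Type} [Enc α] : Enc (List α) := ⟨encList⟩

end Pool.Agent.H7.Comp
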