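import Mathlib
import Pool.Agent.H7.Comp.Model

/-!
# Polynomial-time functions: closure properties
-/

namespace Pool.Agent.H7.Comp

variable {α β γ δ σ : Type} [Enc α] [Enc β] [Enc γ] [Enc δ] [Enc σ]

/-- Encoding size. -/
def sz (x : α) : ℕ := (enc x).size

lemma Tr.size_pos (t : Tr) : 1 ≤ t.size := by cases t <;> simp [Tr.size]

lemma sz_pos (x : α) : 1 ≤ sz x := Tr.size_pos _

lemma sz_pair (a : α) (b : β) : sz (a, b) = sz a + sz b + 1 := rfl

lemma sz_nat (n : ℕ) : sz n = 2 * n + 1 := by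
  induction n with
  | zero => rfl
  | succ n ih =>
    have : sz (n + 1) = 1 + sz n + 1 := rfl
    omega

lemma sz_true : sz true = 3 := rfl
lemma sz_false : sz false = 1 := rfl
lemma sz_bool_le (b : Bool) : sz b ≤ 3 := by cases b <;> simp [sz_true, sz_false]
lemma sz_nil : sz ([] : List α) = 1 := rfl
lemma sz_cons (a : α) (l : List α) : sz (a :: l) = sz a + sz l + 1 := rfl

/-- Polynomially bounded functions. -/
def PB (f : α → ℕ) : Prop := ∃ c : ℕ, ∀ x, f x ≤ (sz x + 2) ^ c

lemma base_ge (x : α) : 3 ≤ sz x + 2 := by have := sz_pos x; omega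

lemma PB.mono {f g : α → ℕ} (hg : PB g) (h : ∀ x, f x ≤ g x) : PB f := by
  obtain ⟨c, hc⟩ := hg
  exact ⟨c, fun x => (h x).trans (hc x)⟩

lemma PB.const (k : ℕ) : PB (fun _ : α => k) := by
  refine ⟨k, fun x => ?_⟩
  calc k ≤ 2 ^ k := Nat.lt_two_pow_self.le
    _ ≤ (sz x + 2) ^ k := Nat.pow_le_pow_left (by have := base_ge x; omega) k

lemma PB.self : PB (fun x : α => sz x) := ⟨1, fun x => by simp⟩

lemma PB.add {f g : α → ℕ} (hf : PB f) (hg : PB g) : PB (fun x => f x + g x) := by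
  obtain ⟨c, hc⟩ := hf
  obtain ⟨d, hd⟩ := hg
  refine ⟨max c d + 1, fun x => ?_⟩
  have h1 : (sz x + 2) ^ c ≤ (sz x + 2) ^ (max c d) :=
    Nat.pow_le_pow_right (by omega) (le_max_left _ _)
  have h2 : (sz x + 2) ^ d ≤ (sz x + 2) ^ (max c d) :=
    Nat.pow_le_pow_right (by omega) (le_max_right _ _)
  have h3 := base_ge x
  calc f x + g x ≤ (sz x + 2) ^ (max c d) + (sz x + 2) ^ (max c d) :=
        Nat.add_le_add ((hc x).trans h1) ((hd x).trans h2)
    _ = (sz x + 2) ^ (max c d) * 2 := by ring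
    _ ≤ (sz x + 2) ^ (max c d) * (sz x + 2) := Nat.mul_le_mul_left _ (by omega)
    _ = _ := by rw [pow_succ]

lemma PB.mul {f g : α → ℕ} (hf : PB f) (hg : PB g) : PB (fun x => f x * g x) := by
  obtain ⟨c, hc⟩ := hf
  obtain ⟨d, hd⟩ := hg
  refine ⟨c + d, fun x => ?_⟩
  rw [pow_add]
  exact Nat.mul_le_mul (hc x) (hd x)

lemma PB.comp {T : β → ℕ} {f : α → β} (hT : PB T) (hf : PB (fun x => sz (f x))) :
    PB (fun x => T (f x)) := by
  obtain ⟨c, hc⟩ := hT
  obtain ⟨d, hd⟩ := hf
  refine ⟨(d + 1) * c, fun x => ?_⟩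
  have h3 := base_ge x
  have h4 : 1 ≤ (sz x + 2) ^ d := Nat.one_le_pow _ _ (by omega)
  have h1 : sz (f x) + 2 ≤ (sz x + 2) ^ (d + 1) := by
    rw [pow_succ]
    have := hd x
    nlinarith
  calc T (f x) ≤ (sz (f x) + 2) ^ c := hc _
    _ ≤ ((sz x + 2) ^ (d + 1)) ^ c := Nat.pow_le_pow_left h1 c
    _ = _ := by rw [pow_mul]

lemma PB.fst : PB (fun p : α × β => sz p.1) :=
  PB.mono PB.self (fun p => by rcases p with ⟨a, b⟩; rw [sz_pair]; simp only; omega)

lemma PB.snd : PB (fun p : α × β => sz p.2) :=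
  PB.mono PB.self (fun p => by rcases p with ⟨a, b⟩; rw [sz_pair]; simp only; omega)

lemma PB.pair {f : α → β} {g : α → γ} (hf : PB (fun x => sz (f x)))
    (hg : PB (fun x => sz (g x))) : PB (fun x => sz (f x, g x)) :=
  PB.mono ((hf.add hg).add (PB.const 1)) (fun x => by rw [sz_pair])

/-- Functions computable in polynomial time, with polynomially bounded output size. -/
def PT (f : α → β) : Prop :=
  ∃ (p : Prog) (T : α → ℕ), PB T ∧ PB (fun x => sz (f x)) ∧
    ∀ x, ∃ t, t ≤ T x ∧ Run p (enc x) (enc (f x)) t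

lemma PT.size {f : α → β} (hf : PT f) : PB (fun x => sz (f x)) := by
  obtain ⟨_, _, _, h, _⟩ := hf
  exact h

lemma PT.congr {f g : α → β} (hf : PT f) (h : ∀ x, f x = g x) : PT g := by
  have : f = g := funext h
  rwa [← this]

lemma PT.id : PT (fun x : α => x) :=
  ⟨.id, fun _ => 1, PB.const 1, PB.self, fun _ => ⟨1, le_rfl, Run.id _⟩⟩

lemma PT.comp {g : β → γ} {f : α → β} (hg : PT g) (hf : PT f) : PT (fun x => g (f x)) := by
  obtain ⟨p, T, hT, hs, hr⟩ := hf
  obtain ⟨q, U, hU, hs', hr'⟩ := hg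
  refine ⟨.seq p q, fun x => T x + U (f x) + 1, (hT.add (hU.comp hs)).add (PB.const 1),
    hs'.comp hs, fun x => ?_⟩
  obtain ⟨t, ht, h1⟩ := hr x
  obtain ⟨u, hu, h2⟩ := hr' (f x)
  exact ⟨t + u + 1, by show t + u + 1 ≤ T x + U (f x) + 1; omega, Run.seq h1 h2⟩

lemma PT.pair {f : α → β} {g : α → γ} (hf : PT f) (hg : PT g) : PT (fun x => (f x, g x)) := by
  obtain ⟨p, T, hT, hs, hr⟩ := hf
  obtain ⟨q, U, hU, hs', hr'⟩ := hg
  refine ⟨.pair p q, fun x => T x + U x + 1, (hT.add hU).add (PB.const 1), hs.pair hs',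
    fun x => ?_⟩
  obtain ⟨t, ht, h1⟩ := hr x
  obtain ⟨u, hu, h2⟩ := hr' x
  exact ⟨t + u + 1, by show t + u + 1 ≤ T x + U x + 1; omega, Run.pair h1 h2⟩

lemma PT.fst : PT (fun p : α × β => p.1) :=
  ⟨.hd, fun _ => 1, PB.const 1, PB.fst, fun _ => ⟨1, le_rfl, Run.hd_node _ _⟩⟩

lemma PT.snd : PT (fun p : α × β => p.2) :=
  ⟨.tl, fun _ => 1, PB.const 1, PB.snd, fun _ => ⟨1, le_rfl, Run.tl_node _ _⟩⟩

/-- A program producing a fixed tree. -/
def Tr.prog : Tr → Prog
  | .nil => .nil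
  | .node a b => .pair a.prog b.prog

lemma Tr.prog_run (t x : Tr) : ∃ s, s ≤ 2 * t.size ∧ Run t.prog x t s := by
  induction t with
  | nil => exact ⟨1, by simp [Tr.size], Run.nil _⟩
  | node a b iha ihb =>
    obtain ⟨s, hs, h1⟩ := iha
    obtain ⟨u, hu, h2⟩ := ihb
    exact ⟨s + u + 1, by simp only [Tr.size]; omega, Run.pair h1 h2⟩

lemma PT.const (b : β) : PT (fun _ : α => b) :=
  ⟨(enc b).prog, fun _ => 2 * (enc b).size, PB.const _, PB.const _, fun x =>
    (enc b).prog_run (enc x)⟩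

lemma PT.ite' {c : α → Bool} {f g : α → β} (hc : PT c) (hf : PT f) (hg : PT g) :
    PT (fun x => bif c x then f x else g x) := by
  obtain ⟨r, V, hV, _, hrr⟩ := hc
  obtain ⟨p, T, hT, hs, hr⟩ := hf
  obtain ⟨q, U, hU, hs', hr'⟩ := hg
  refine ⟨.cond r p q, fun x => V x + (T x + U x) + 1, (hV.add (hT.add hU)).add (PB.const 1), ?_,
    fun x => ?_⟩
  · refine PB.mono (hs.add hs') (fun x => ?_)
    show sz (bif c x then f x else g x) ≤ sz (f x) + sz (g x)
    cases c x
    · show sz (g x) ≤ sz (f x) + sz (g x)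
      omega
    · show sz (f x) ≤ sz (f x) + sz (g x)
      omega
  · obtain ⟨v, hv, h0⟩ := hrr x
    rcases hcx : c x with _ | _
    · obtain ⟨u, hu, h2⟩ := hr' x
      rw [hcx] at h0
      refine ⟨v + u + 1, by show v + u + 1 ≤ V x + (T x + U x) + 1; omega, ?_⟩
      simp only [hcx, cond_false]
      exact Run.cond_false h0 h2
    · obtain ⟨t, ht, h1⟩ := hr x
      rw [hcx] at h0
      refine ⟨v + t + 1, by show v + t + 1 ≤ V x + (T x + U x) + 1; omega, ?_⟩
      simp only [hcx, cond_true]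
      exact Run.cond_true h0 h1

lemma PT.succ : PT (fun n : ℕ => n + 1) :=
  ⟨.pair .nil .id, fun _ => 3, PB.const 3, PB.mono (PB.self.add (PB.const 2)) (fun n => by
    show sz (n + 1) ≤ sz n + 2
    rw [sz_nat, sz_nat]; omega), fun n => ⟨1 + 1 + 1, le_rfl, Run.pair (Run.nil _) (Run.id _)⟩⟩

lemma PT.pred : PT (fun n : ℕ => n - 1) :=
  ⟨.tl, fun _ => 1, PB.const 1, PB.mono PB.self (fun n => by
    show sz (n - 1) ≤ sz n
    rw [sz_nat, sz_nat]; omega), fun n => ⟨1, le_rfl, by
      cases n with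
      | zero => exact Run.tl_nil
      | succ n => exact Run.tl_node _ _⟩⟩

lemma PT.isPos : PT (fun n : ℕ => decide (0 < n)) :=
  ⟨.cond .id (.pair .nil .nil) .nil, fun _ => 10, PB.const 10, PB.mono (PB.const 3)
    (fun n => sz_bool_le _), fun n => by
      cases n with
      | zero => exact ⟨1 + 1 + 1, by norm_num, Run.cond_false (Run.id _) (Run.nil _)⟩
      | succ n => exact ⟨1 + (1 + 1 + 1) + 1, by norm_num,
          Run.cond_true (Run.id _) (Run.pair (Run.nil _) (Run.nil _))⟩⟩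

/-- The iteration `s ↦ step (x, i, s)`. -/
def iter (step : α × ℕ × σ → σ) (x : α) (s : σ) : ℕ → σ
  | 0 => s
  | i + 1 => step (x, i, iter step x s i)

omit [Enc α] [Enc σ] in
lemma iter_zero (step : α × ℕ × σ → σ) (x : α) (s : σ) : iter step x s 0 = s := rfl
omit [Enc α] [Enc σ] in
lemma iter_succ (step : α × ℕ × σ → σ) (x : α) (s : σ) (i : ℕ) :
    iter step x s (i + 1) = step (x, i, iter step x s i) := rfl

/-- Bounded iteration. -/
theorem PT.iter {n : α → ℕ} {init : α → σ} {step : α × ℕ × σ → σ} (hn : PT n) (hi : PT init)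
    (hstep : PT step) (S : α → ℕ) (hS : PB S)
    (hb : ∀ x i, i ≤ n x → sz (Comp.iter step x (init x) i) ≤ S x) :
    PT (fun x => Comp.iter step x (init x) (n x)) := by
  obtain ⟨p, T, hT, hs, hr⟩ := hstep
  -- the loop
  let body : Prog := .pair (.seq .hd .tl) (.pair (.seq .tl .hd)
    (.pair (.pair .nil (.seq .tl (.seq .tl .hd))) (.seq .tl p)))
  have hn' := hn
  have hi' := hi
  obtain ⟨pn, Tn, hTn, hsn, hrn⟩ := hn
  obtain ⟨pi, Ti, hTi, hsi, hri⟩ := hi
  let prog : Prog := .seq (.pair pn (.pair .id (.pair .nil pi)))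
    (.seq (.loop .hd body) (.seq .tl (.seq .tl .tl)))
  -- bound for the running time of one step
  obtain ⟨c, hc⟩ := hT
  let M : α → ℕ := fun x => (sz x + (2 * n x + 1) + S x + 2 + 2) ^ c
  have hM : PB M := by
    have h1 : PB (fun x : α => sz x + (2 * n x + 1) + S x + 2) := by
      refine (((PB.self).add ?_).add hS).add (PB.const 2)
      exact PB.mono hsn (fun x => by rw [sz_nat])
    obtain ⟨d, hd⟩ := h1
    refine ⟨(d + 1) * c, fun x => ?_⟩
    have h3 := base_ge x
    have h4 : 1 ≤ (sz x + 2) ^ d := Nat.one_le_pow _ _ (by omega)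
    have h5 : sz x + (2 * n x + 1) + S x + 2 + 2 ≤ (sz x + 2) ^ (d + 1) := by
      rw [pow_succ]
      have := hd x
      simp only at this
      nlinarith
    rw [pow_mul]
    exact Nat.pow_le_pow_left h5 c
  have hloop : ∀ (x : α) (j i : ℕ), i + j = n x → ∃ t, t ≤ (M x + 30) * j + 5 ∧
      Run (.loop .hd body)
        (.node (encNat j) (.node (enc x) (.node (encNat i) (enc (Comp.iter step x (init x) i)))))
        (.node .nil (.node (enc x) (.node (encNat (n x))
          (enc (Comp.iter step x (init x) (n x)))))) t := by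
    intro x j
    induction j with
    | zero =>
      intro i hij
      have : i = n x := by omega
      subst this
      exact ⟨1 + 1, by omega, Run.loop_stop (Run.hd_node _ _)⟩
    | succ j ih =>
      intro i hij
      obtain ⟨t, ht, hrun⟩ := ih (i + 1) (by omega)
      obtain ⟨u, hu, hrun2⟩ := hr (x, i, Comp.iter step x (init x) i)
      have hM2 : T (x, i, Comp.iter step x (init x) i) ≤ M x := by
        refine (hc _).trans ?_
        apply Nat.pow_le_pow_left
        rw [sz_pair, sz_pair, sz_nat]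
        have := hb x i (by omega)
        omega
      have hbody : Run body
          (.node (encNat (j + 1)) (.node (enc x) (.node (encNat i)
            (enc (Comp.iter step x (init x) i)))))
          (.node (encNat j) (.node (enc x) (.node (encNat (i + 1))
            (enc (Comp.iter step x (init x) (i + 1)))))) 
          ((1 + 1 + 1) + ((1 + 1 + 1) + ((1 + (1 + (1 + 1 + 1) + 1) + 1) + (1 + u + 1) + 1) + 1)
            + 1) := by
        refine Run.pair (Run.seq (Run.hd_node _ _) (Run.tl_node _ _)) (Run.pair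
          (Run.seq (Run.tl_node _ _) (Run.hd_node _ _)) (Run.pair (Run.pair (Run.nil _)
            (Run.seq (Run.tl_node _ _) (Run.seq (Run.tl_node _ _) (Run.hd_node _ _))))
              (Run.seq (Run.tl_node _ _) hrun2)))
      have := Run.loop_step (Run.hd_node (encNat (j + 1)) (.node (enc x) (.node (encNat i)
            (enc (Comp.iter step x (init x) i))))) hbody hrun
      refine ⟨_, ?_, this⟩
      have : (M x + 30) * (j + 1) = (M x + 30) * j + (M x + 30) := by ring
      omega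
  refine ⟨prog, fun x => Tn x + Ti x + ((M x + 30) * n x + 5) + 30, ?_, ?_, ?_⟩
  · refine ((hTn.add hTi).add (((hM.add (PB.const 30)).mul ?_).add (PB.const 5))).add (PB.const 30)
    exact PB.mono hsn (fun x => by rw [sz_nat]; omega)
  · exact PB.mono hS (fun x => hb x (n x) le_rfl)
  · intro x
    obtain ⟨tn, htn, h1⟩ := hrn x
    obtain ⟨ti, hti, h2⟩ := hri x
    obtain ⟨t, ht, h3⟩ := hloop x (n x) 0 (by omega)
    have h4 := Run.seq (Run.pair h1 (Run.pair (Run.id (enc x)) (Run.pair (Run.nil (enc x)) h2)))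
      (Run.seq h3 (Run.seq (Run.tl_node _ _) (Run.seq (Run.tl_node _ _) (Run.tl_node _ _))))
    refine ⟨_, ?_, h4⟩
    show _ ≤ Tn x + Ti x + ((M x + 30) * n x + 5) + 30
    omega

end Pool.Agent.H7.Comp
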