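import Mathlib
import Pool.Agent.H7.Comp.PT

/-!
# Polynomial-time arithmetic, predicates and lists
-/

namespace Pool.Agent.H7.Comp

variable {α β γ δ σ : Type} [Enc α] [Enc β] [Enc γ] [Enc δ] [Enc σ]

/-- Bounded iteration, closed form. -/
theorem PT.iterClosed {n : α → ℕ} (F : α → ℕ → σ) (step : α × ℕ × σ → σ) (hn : PT n)
    (h0 : PT (fun x => F x 0)) (hstep : PT step)
    (hF : ∀ x i, i < n x → F x (i + 1) = step (x, i, F x i)) (S : α → ℕ) (hS : PB S)
    (hb : ∀ x i, i ≤ n x → sz (F x i) ≤ S x) : PT (fun x => F x (n x)) := by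
  have key : ∀ x i, i ≤ n x → Comp.iter step x (F x 0) i = F x i := by
    intro x i
    induction i with
    | zero => intro _; rfl
    | succ i ih =>
      intro hi
      rw [iter_succ, ih (by omega), hF x i (by omega)]
  refine PT.congr (PT.iter hn h0 hstep S hS ?_) (fun x => key x (n x) le_rfl)
  intro x i hi
  rw [key x i hi]
  exact hb x i hi

/-- Predicates decidable in polynomial time. -/
def PTp (P : α → Prop) : Prop := ∃ f : α → Bool, PT f ∧ ∀ x, f x = true ↔ P x

lemma PTp.congr {P Q : α → Prop} (hP : PTp P) (h : ∀ x, P x ↔ Q x) : PTp Q := by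
  obtain ⟨f, hf, hfP⟩ := hP
  exact ⟨f, hf, fun x => (hfP x).trans (h x)⟩

lemma PTp.comp {P : β → Prop} {f : α → β} (hP : PTp P) (hf : PT f) : PTp (fun x => P (f x)) := by
  obtain ⟨g, hg, h⟩ := hP
  exact ⟨fun x => g (f x), hg.comp hf, fun x => h (f x)⟩

lemma PTp.not {P : α → Prop} (hP : PTp P) : PTp (fun x => ¬ P x) := by
  obtain ⟨f, hf, h⟩ := hP
  refine ⟨fun x => bif f x then false else true, PT.ite' hf (PT.const false) (PT.const true),
    fun x => ?_⟩
  show (bif f x then false else true) = true ↔ ¬ P x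
  rw [← h x]
  cases f x <;> simp

lemma PTp.and {P Q : α → Prop} (hP : PTp P) (hQ : PTp Q) : PTp (fun x => P x ∧ Q x) := by
  obtain ⟨f, hf, h⟩ := hP
  obtain ⟨g, hg, h'⟩ := hQ
  refine ⟨fun x => bif f x then g x else false, PT.ite' hf hg (PT.const false), fun x => ?_⟩
  show (bif f x then g x else false) = true ↔ P x ∧ Q x
  rw [← h x, ← h' x]
  cases f x <;> simp

lemma PTp.or {P Q : α → Prop} (hP : PTp P) (hQ : PTp Q) : PTp (fun x => P x ∨ Q x) := by
  obtain ⟨f, hf, h⟩ := hP
  obtain ⟨g, hg, h'⟩ := hQ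
  refine ⟨fun x => bif f x then true else g x, PT.ite' hf (PT.const true) hg, fun x => ?_⟩
  show (bif f x then true else g x) = true ↔ P x ∨ Q x
  rw [← h x, ← h' x]
  cases f x <;> simp

lemma PTp.const (P : Prop) : PTp (fun _ : α => P) := by
  classical
  exact ⟨fun _ => decide P, PT.const _, fun _ => by simp⟩

lemma PTp.ite {P Q R : α → Prop} (hP : PTp P) (hQ : PTp Q) (hR : PTp R) :
    PTp (fun x => (P x ∧ Q x) ∨ (¬ P x ∧ R x)) :=
  (hP.and hQ).or (hP.not.and hR)

lemma PT.ite {P : α → Prop} [DecidablePred P] {f g : α → β} (hP : PTp P) (hf : PT f)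
    (hg : PT g) : PT (fun x => if P x then f x else g x) := by
  obtain ⟨c, hc, h⟩ := hP
  refine PT.congr (PT.ite' hc hf hg) (fun x => ?_)
  have := h x
  cases hcx : c x
  · have h1 : ¬ P x := by rw [← this, hcx]; simp
    simp [h1]
  · have h1 : P x := by rw [← this, hcx]
    simp [h1]

lemma PTp.toPT {P : α → Prop} [DecidablePred P] (hP : PTp P) : PT (fun x => decide (P x)) := by
  refine PT.congr (PT.ite hP (PT.const true) (PT.const false)) (fun x => ?_)
  by_cases h : P x <;> simp [h]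

lemma PTp.ofBool {f : α → Bool} (hf : PT f) : PTp (fun x => f x = true) := ⟨f, hf, fun _ => Iff.rfl⟩

/-! ### Arithmetic -/

lemma PB.natval : PB (fun n : ℕ => n) := PB.mono PB.self (fun n => by rw [sz_nat]; omega)

lemma PT.value {f : α → ℕ} (hf : PT f) : PB f :=
  PB.mono hf.size (fun x => by
    show f x ≤ sz (f x)
    rw [sz_nat]; omega)

lemma PB.sznat {f : α → ℕ} (hf : PB f) : PB (fun x => sz (f x)) :=
  PB.mono ((PB.const 2).mul hf |>.add (PB.const 1)) (fun x => by
    show sz (f x) ≤ 2 * f x + 1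
    rw [sz_nat])

lemma PT.add' : PT (fun p : ℕ × ℕ => p.1 + p.2) := by
  refine PT.iterClosed (fun p i => p.1 + i) (fun q => q.2.2 + 1) PT.snd ?_ ?_ ?_
    (fun p => 2 * (p.1 + p.2) + 1) ?_ ?_
  · exact PT.fst.congr (fun p => by simp)
  · exact PT.succ.comp (PT.snd.comp PT.snd)
  · intro p i _; rfl
  · exact ((PB.const 2).mul ((PT.value PT.fst).add (PT.value PT.snd))).add (PB.const 1)
  · intro p i hi
    rw [sz_nat]
    have : i ≤ p.2 := hi
    omega

lemma PT.add {f g : α → ℕ} (hf : PT f) (hg : PT g) : PT (fun x => f x + g x) :=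
  PT.add'.comp (hf.pair hg)

lemma PT.mul' : PT (fun p : ℕ × ℕ => p.1 * p.2) := by
  refine PT.iterClosed (fun p i => p.1 * i) (fun q => q.2.2 + q.1.1) PT.snd ?_ ?_ ?_
    (fun p => 2 * (p.1 * p.2) + 1) ?_ ?_
  · exact (PT.const 0).congr (fun p => by simp)
  · exact (PT.snd.comp PT.snd).add (PT.fst.comp PT.fst)
  · intro p i _
    show p.1 * (i + 1) = p.1 * i + p.1
    ring
  · exact ((PB.const 2).mul ((PT.value PT.fst).mul (PT.value PT.snd))).add (PB.const 1)
  · intro p i hi
    rw [sz_nat]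
    have : i ≤ p.2 := hi
    have := Nat.mul_le_mul_left p.1 this
    omega

lemma PT.mul {f g : α → ℕ} (hf : PT f) (hg : PT g) : PT (fun x => f x * g x) :=
  PT.mul'.comp (hf.pair hg)

lemma PT.sq {f : α → ℕ} (hf : PT f) : PT (fun x => f x ^ 2) :=
  (hf.mul hf).congr (fun x => by ring)

lemma PT.sub' : PT (fun p : ℕ × ℕ => p.1 - p.2) := by
  refine PT.iterClosed (fun p i => p.1 - i) (fun q => q.2.2 - 1) PT.snd ?_ ?_ ?_
    (fun p => 2 * (p.1 + p.2) + 1) ?_ ?_
  · exact PT.fst.congr (fun p => by simp)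
  · exact PT.pred.comp (PT.snd.comp PT.snd)
  · intro p i _
    show p.1 - (i + 1) = p.1 - i - 1
    omega
  · exact ((PB.const 2).mul ((PT.value PT.fst).add (PT.value PT.snd))).add (PB.const 1)
  · intro p i hi
    rw [sz_nat]
    omega

lemma PT.sub {f g : α → ℕ} (hf : PT f) (hg : PT g) : PT (fun x => f x - g x) :=
  PT.sub'.comp (hf.pair hg)

lemma PTp.lt {f g : α → ℕ} (hf : PT f) (hg : PT g) : PTp (fun x => f x < g x) := by
  refine ⟨fun x => decide (0 < g x - f x), PT.isPos.comp (hg.sub hf), fun x => ?_⟩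
  simp only [decide_eq_true_eq]
  omega

lemma PTp.le {f g : α → ℕ} (hf : PT f) (hg : PT g) : PTp (fun x => f x ≤ g x) :=
  (PTp.lt hg hf).not.congr (fun x => by omega)

lemma PTp.eq {f g : α → ℕ} (hf : PT f) (hg : PT g) : PTp (fun x => f x = g x) :=
  ((PTp.le hf hg).and (PTp.le hg hf)).congr (fun x => by omega)

lemma PTp.bex {n : α → ℕ} {P : α → ℕ → Prop} (hn : PT n)
    (hP : PTp (fun p : α × ℕ => P p.1 p.2)) : PTp (fun x => ∃ i, i < n x ∧ P x i) := by
  classical
  obtain ⟨f, hf, h⟩ := hP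
  refine ⟨fun x => decide (∃ i, i < n x ∧ P x i), ?_, fun x => by simp⟩
  refine PT.iterClosed (fun x m => decide (∃ i, i < m ∧ P x i))
    (fun q => bif q.2.2 then true else f (q.1, q.2.1)) hn ?_ ?_ ?_ (fun _ => 3) (PB.const 3) ?_
  · exact (PT.const false).congr (fun x => by simp)
  · exact PT.ite' (PT.snd.comp PT.snd) (PT.const true)
      (hf.comp (PT.fst.pair (PT.fst.comp PT.snd)))
  · intro x i _
    have h1 := h (x, i)
    simp only at h1 ⊢
    by_cases hex : ∃ j, j < i ∧ P x j
    · have h2 : ∃ j, j < i + 1 ∧ P x j := by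
        obtain ⟨j, hj, hPj⟩ := hex
        exact ⟨j, by omega, hPj⟩
      simp only [hex, h2, decide_true, cond_true]
    · simp only [hex, decide_false, cond_false]
      rw [Bool.eq_iff_iff, h1, decide_eq_true_eq]
      constructor
      · rintro ⟨j, hj, hPj⟩
        rcases Nat.lt_succ_iff_lt_or_eq.mp hj with h3 | h3
        · exact absurd ⟨j, h3, hPj⟩ hex
        · rw [← h3]; exact hPj
      · intro h3
        exact ⟨i, by omega, h3⟩
  · intro x i _
    exact sz_bool_le _

lemma PTp.ball {n : α → ℕ} {P : α → ℕ → Prop} (hn : PT n)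
    (hP : PTp (fun p : α × ℕ => P p.1 p.2)) : PTp (fun x => ∀ i, i < n x → P x i) :=
  (PTp.bex (P := fun x i => ¬ P x i) hn hP.not).not.congr (fun x => by push Not; rfl)

lemma PT.div' : PT (fun p : ℕ × ℕ => p.1 / p.2) := by
  have h : PT (fun p : ℕ × ℕ => (fun (p : ℕ × ℕ) (i : ℕ) =>
      if p.2 = 0 then 0 else min i (p.1 / p.2)) p (p.1)) := by
    refine PT.iterClosed (fun p i => if p.2 = 0 then 0 else min i (p.1 / p.2))
      (fun q => if q.1.2 = 0 then 0 else
        (if (q.2.1 + 1) * q.1.2 ≤ q.1.1 then q.2.2 + 1 else q.2.2)) PT.fst ?_ ?_ ?_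
      (fun p => 2 * (p.1 + p.2) + 1) ?_ ?_
    · exact (PT.const 0).congr (fun p => by simp)
    · refine PT.ite (PTp.eq (PT.snd.comp PT.fst) (PT.const 0)) (PT.const 0) (PT.ite ?_ ?_ ?_)
      · exact PTp.le ((PT.succ.comp (PT.fst.comp PT.snd)).mul (PT.snd.comp PT.fst))
          (PT.fst.comp PT.fst)
      · exact PT.succ.comp (PT.snd.comp PT.snd)
      · exact PT.snd.comp PT.snd
    · intro p i _
      simp only
      split_ifs with h1 h2
      · rfl
      · have : i + 1 ≤ p.1 / p.2 := (Nat.le_div_iff_mul_le (by omega)).mpr h2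
        omega
      · have : ¬ (i + 1 ≤ p.1 / p.2) := by
          intro h3; exact h2 ((Nat.le_div_iff_mul_le (by omega)).mp h3)
        omega
    · exact ((PB.const 2).mul ((PT.value PT.fst).add (PT.value PT.snd))).add (PB.const 1)
    · intro p i hi
      have hi' : i ≤ p.1 := hi
      rw [sz_nat]
      split_ifs
      · omega
      · have : min i (p.1 / p.2) ≤ i := min_le_left _ _
        omega
  refine h.congr (fun p => ?_)
  simp only
  split_ifs with h1
  · rw [h1]; simp
  · exact min_eq_right (Nat.div_le_self _ _)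

lemma PT.div {f g : α → ℕ} (hf : PT f) (hg : PT g) : PT (fun x => f x / g x) :=
  PT.div'.comp (hf.pair hg)

lemma PT.mod {f g : α → ℕ} (hf : PT f) (hg : PT g) : PT (fun x => f x % g x) :=
  (hf.sub (hg.mul (hf.div hg))).congr (fun x => by
    have := Nat.div_add_mod (f x) (g x)
    omega)

/-! ### Lists -/

lemma PT.cons {f : α → β} {g : α → List β} (hf : PT f) (hg : PT g) :
    PT (fun x => f x :: g x) := by
  obtain ⟨p, T, hT, hs, hr⟩ := hf.pair hg
  exact ⟨p, T, hT, hs, hr⟩

lemma sz_tail_le (l : List β) : sz l.tail ≤ sz l := by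
  cases l with
  | nil => exact le_rfl
  | cons a l => rw [List.tail_cons, sz_cons]; omega

lemma PT.tail' : PT (fun l : List β => l.tail) :=
  ⟨.tl, fun _ => 1, PB.const 1, PB.mono PB.self sz_tail_le, fun l => ⟨1, le_rfl, by
    cases l with
    | nil => exact Run.tl_nil
    | cons a l => exact Run.tl_node _ _⟩⟩

lemma PT.tail {f : α → List β} (hf : PT f) : PT (fun x => (f x).tail) := PT.tail'.comp hf

lemma PT.headD' : PT (fun p : List β × β => p.1.headD p.2) := by
  refine ⟨.cond .hd (.seq .hd .hd) .tl, fun _ => 10, PB.const 10, ?_, ?_⟩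
  · refine PB.mono PB.self (fun p => ?_)
    rcases p with ⟨l, b⟩
    rw [sz_pair]
    cases l with
    | nil => simp only [List.headD_nil]; omega
    | cons a l => simp only [List.headD_cons]; rw [sz_cons]; omega
  · rintro ⟨l, b⟩
    cases l with
    | nil => exact ⟨1 + 1 + 1, by norm_num, Run.cond_false (Run.hd_node _ _) (Run.tl_node _ _)⟩
    | cons a l => exact ⟨1 + (1 + 1 + 1) + 1, by norm_num,
        Run.cond_true (Run.hd_node _ _) (Run.seq (Run.hd_node _ _) (Run.hd_node _ _))⟩

lemma sz_drop_le (l : List β) (i : ℕ) : sz (l.drop i) ≤ sz l := by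
  induction i generalizing l with
  | zero => simp
  | succ i ih =>
    cases l with
    | nil => simp
    | cons a l => rw [List.drop_succ_cons, sz_cons]; have := ih l; omega

lemma PT.drop' : PT (fun p : List β × ℕ => p.1.drop p.2) := by
  refine PT.iterClosed (fun (p : List β × ℕ) i => p.1.drop i)
    (fun (q : (List β × ℕ) × ℕ × List β) => q.2.2.tail) PT.snd ?_ ?_ ?_ (fun p => sz p.1) ?_ ?_
  · exact PT.fst.congr (fun p => by simp)
  · exact PT.tail (PT.snd.comp PT.snd)
  · intro p i _
    simp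
  · exact PB.fst
  · intro p i _
    exact sz_drop_le _ _

lemma PT.getD {f : α → List β} {g : α → ℕ} {d : α → β} (hf : PT f) (hg : PT g) (hd : PT d) :
    PT (fun x => (f x).getD (g x) (d x)) := by
  have h := PT.headD'.comp ((PT.drop'.comp (hf.pair hg)).pair hd)
  refine h.congr (fun x => ?_)
  simp only
  rw [List.headD_eq_head?_getD, List.head?_drop, List.getD_eq_getElem?_getD]

lemma sz_map_le (l : List ℕ) (f : ℕ → β) (M : ℕ) (h : ∀ i ∈ l, sz (f i) ≤ M) :
    sz (l.map f) ≤ l.length * (M + 1) + 1 := by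
  induction l with
  | nil => simp [sz_nil]
  | cons a l ih =>
    rw [List.map_cons, sz_cons, List.length_cons]
    have h1 := h a (by simp)
    have h2 := ih (fun i hi => h i (by simp [hi]))
    have : (l.length + 1) * (M + 1) = l.length * (M + 1) + (M + 1) := by ring
    omega

/-- Tabulation. -/
theorem PT.mapRange {n : α → ℕ} {f : α → ℕ → β} (hn : PT n)
    (hf : PT (fun p : α × ℕ => f p.1 p.2)) : PT (fun x => (List.range (n x)).map (f x)) := by
  obtain ⟨c, hc⟩ := hf.size
  let M : α → ℕ := fun x => (sz x + (2 * n x + 1) + 1 + 2) ^ c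
  have hM : PB M := by
    have h1 : PB (fun x : α => sz x + (2 * n x + 1) + 1) := by
      refine ((PB.self).add ?_).add (PB.const 1)
      exact PB.mono hn.size (fun x => by
        show 2 * n x + 1 ≤ sz (n x)
        rw [sz_nat])
    obtain ⟨d, hd⟩ := h1
    refine ⟨(d + 1) * c, fun x => ?_⟩
    have h3 := base_ge x
    have h4 : 1 ≤ (sz x + 2) ^ d := Nat.one_le_pow _ _ (by omega)
    have h5 : sz x + (2 * n x + 1) + 1 + 2 ≤ (sz x + 2) ^ (d + 1) := by
      rw [pow_succ]
      have := hd x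
      simp only at this
      nlinarith
    rw [pow_mul]
    exact Nat.pow_le_pow_left h5 c
  have h := PT.iterClosed (n := n) (fun x i => (List.range' (n x - i) i).map (f x))
    (fun q => f q.1 (n q.1 - 1 - q.2.1) :: q.2.2) hn ?_ ?_ ?_ (fun x => n x * (M x + 1) + 1) ?_ ?_
  · refine h.congr (fun x => ?_)
    simp [List.range_eq_range']
  · exact (PT.const []).congr (fun x => by simp)
  · refine PT.cons ?_ (PT.snd.comp PT.snd)
    exact hf.comp (PT.fst.pair (((hn.comp PT.fst).sub (PT.const 1)).sub (PT.fst.comp PT.snd)))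
  · intro x i hi
    simp only
    have e1 : n x - (i + 1) = n x - 1 - i := by omega
    have e2 : n x - 1 - i + 1 = n x - i := by omega
    rw [e1, List.range'_succ, List.map_cons, e2]
  · exact ((hn.value).mul (hM.add (PB.const 1))).add (PB.const 1)
  · intro x i hi
    refine (sz_map_le _ _ (M x) ?_).trans ?_
    · intro j hj
      rw [List.mem_range'_1] at hj
      refine (hc (x, j)).trans ?_
      apply Nat.pow_le_pow_left
      rw [sz_pair, sz_nat]
      omega
    · rw [List.length_range']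
      have : i * (M x + 1) ≤ n x * (M x + 1) := Nat.mul_le_mul_right _ hi
      omega

end Pool.Agent.H7.Comp
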